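import Pool.Agent.H93.TN.TargetsA

/-! Module CNC: convolutions with kernels of smooth symbols. -/

set_option autoImplicit false

namespace Pool.Agent.H3.TN

open MeasureTheory Set FourierTransform
open Pool.Agent.H93.TN Pool.Agent.H83.LS Pool.Agent.H93.AR Pool.Agent.H54.LS Pool.Agent.H14.LS
open Pool.Agent.H83.AR Pool.Agent.H84.BR Pool.Agent.H84.B2
open scoped ENNReal NNReal SchwartzMap

theorem cnc_schw {n : ℕ} {s : EE n → ℂ} (hs : SC s) :
    ∃ k : 𝓢(EE n, ℂ), (⇑k : EE n → ℂ) = MK s ∧ 𝓕 (MK s) = s := by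
  have h1 : (⇑(𝓕⁻ (hs.2.toSchwartzMap hs.1) : 𝓢(EE n, ℂ)) : EE n → ℂ) = MK s := by
    rw [SchwartzMap.fourierInv_coe]
    funext x
    rw [Real.fourierInv_eq']
    unfold MK e
    apply integral_congr_ae
    filter_upwards with ξ
    rw [real_inner_comm, smul_eq_mul]
    rfl
  refine ⟨𝓕⁻ (hs.2.toSchwartzMap hs.1), h1, ?_⟩
  rw [← h1, ← SchwartzMap.fourier_coe, FourierTransform.fourier_fourierInv_eq]
  rfl

/-- continuity, boundedness, integrability of the kernel -/
theorem cnc_ker {n : ℕ} {s : EE n → ℂ} (hs : SC s) :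
    Integrable (MK s) ∧ Continuous (MK s) ∧ ∃ A : ℝ, ∀ x, ‖MK s x‖ ≤ A := by
  obtain ⟨k, hk, -⟩ := cnc_schw hs
  rw [← hk]
  refine ⟨k.integrable, k.continuous, ?_⟩
  obtain ⟨C, hC⟩ := k.decay 0 0
  exact ⟨C, fun x => by simpa using hC.2 x⟩

theorem cnc_sc_int {n : ℕ} {s : EE n → ℂ} (hs : SC s) : Integrable s :=
  hs.1.continuous.integrable_of_hasCompactSupport hs.2

theorem cnc_sc_smul {n : ℕ} {s : EE n → ℂ} (hs : SC s) (c : ℂ) : SC (fun ξ => c * s ξ) :=
  ⟨contDiff_const.mul hs.1, hs.2.mul_left⟩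

theorem cnc_MK_smul {n : ℕ} (s : EE n → ℂ) (c : ℂ) (x : EE n) :
    MK (fun ξ => c * s ξ) x = c * MK s x := by
  unfold MK
  rw [← integral_const_mul]
  apply integral_congr_ae
  filter_upwards with ξ
  ring

/-- the kernel of a product -/
theorem cnc_prod (hPLE : T_PLE) {n : ℕ} {s₁ s₂ : EE n → ℂ} (h1 : SC s₁) (h2 : SC s₂) (x : EE n) :
    ∫ y, MK s₁ (x - y) * MK s₂ y = MK (fun ξ => s₁ ξ * s₂ ξ) x := by
  obtain ⟨A, hA⟩ : ∃ A : ℝ, ∀ ξ, ‖s₁ ξ‖ ≤ A :=
    h1.1.continuous.bounded_above_of_compact_support h1.2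
  obtain ⟨B, hB0, hB⟩ : ∃ B : ℝ, 0 < B ∧ ∀ ξ, ‖s₁ ξ‖ ≤ B :=
    ⟨max A 1, lt_max_of_lt_right one_pos, fun ξ => (hA ξ).trans (le_max_left _ _)⟩
  obtain ⟨m, hm⟩ : ∃ m : EE n → ℂ, m = fun ξ => ((B⁻¹ : ℝ) : ℂ) * s₁ ξ := ⟨_, rfl⟩
  have hmS : SC m := by
    rw [hm]
    exact cnc_sc_smul h1 _
  have hs1 : s₁ = fun ξ => (B : ℂ) * m ξ := by
    funext ξ
    rw [hm]
    simp only
    rw [← mul_assoc, ← Complex.ofReal_mul, mul_inv_cancel₀ hB0.ne', Complex.ofReal_one, one_mul]
  have hm1 : ∀ ξ, ‖m ξ‖ ≤ 1 := by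
    intro ξ
    rw [hm]
    simp only
    rw [norm_mul, Complex.norm_real, Real.norm_of_nonneg (inv_nonneg.2 hB0.le),
      inv_mul_le_iff₀ hB0, mul_one]
    exact hB ξ
  obtain ⟨-, -, hF⟩ := cnc_schw h2
  obtain ⟨hki, hkc, hkb⟩ := cnc_ker h2
  have h3 := (hPLE n m (MK s₂) hmS.1.continuous.measurable hm1 (cnc_sc_int hmS) hki hkb
    hkc.measurable).1 x
  have h4 : ∀ y, MK s₁ (x - y) * MK s₂ y = (B : ℂ) * (MK m (x - y) * MK s₂ y) := by
    intro y
    rw [hs1, cnc_MK_smul]
    ring
  simp only [h4]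
  rw [integral_const_mul, ← h3]
  unfold MM
  rw [cnc_schw h2 |>.choose_spec.2]
  rw [hs1]
  unfold MK
  rw [← integral_const_mul]
  apply integral_congr_ae
  filter_upwards with ξ
  ring

/-- `L²` bound for integrable data -/
theorem cnc_l2i (hPLE : T_PLE) {n : ℕ} {s : EE n → ℂ} (hs : SC s) {v : EE n → ℂ} {M B : ℝ}
    (hv : Measurable v) (hvb : ∀ x, ‖v x‖ ≤ M) (hvi : Integrable v) (hB : ∀ ξ, ‖s ξ‖ ≤ B) :
    ∫⁻ x, ‖cn (MK s) v x‖ₑ ^ 2 ≤ ENNReal.ofReal (B ^ 2) * ∫⁻ x, ‖v x‖ₑ ^ 2 := by
  have hB0 : 0 ≤ B := (norm_nonneg _).trans (hB 0)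
  rcases hB0.eq_or_lt with h0 | h0
  · -- the symbol vanishes
    have h1 : s = fun _ => 0 := by
      funext ξ
      have := hB ξ
      rw [← h0] at this
      exact norm_le_zero_iff.1 this
    have h2 : ∀ x, cn (MK s) v x = 0 := by
      intro x
      unfold cn
      have : ∀ y, MK s y = 0 := by
        intro y
        unfold MK
        rw [h1]
        simp
      simp [this]
    simp [h2]
  · obtain ⟨m, hm⟩ : ∃ m : EE n → ℂ, m = fun ξ => ((B⁻¹ : ℝ) : ℂ) * s ξ := ⟨_, rfl⟩
    have hmS : SC m := by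
      rw [hm]
      exact cnc_sc_smul hs _
    have hs1 : s = fun ξ => (B : ℂ) * m ξ := by
      funext ξ
      rw [hm]
      simp only
      rw [← mul_assoc, ← Complex.ofReal_mul, mul_inv_cancel₀ h0.ne', Complex.ofReal_one, one_mul]
    have hm1 : ∀ ξ, ‖m ξ‖ ≤ 1 := by
      intro ξ
      rw [hm]
      simp only
      rw [norm_mul, Complex.norm_real, Real.norm_of_nonneg (inv_nonneg.2 h0.le),
        inv_mul_le_iff₀ h0, mul_one]
      exact hB ξ
    obtain ⟨h3, h4⟩ := hPLE n m v hmS.1.continuous.measurable hm1 (cnc_sc_int hmS) hvi ⟨M, hvb⟩ hv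
    have h5 : ∀ x, cn (MK s) v x = (B : ℂ) * MM m v x := by
      intro x
      rw [h3 x]
      unfold cn
      rw [← integral_const_mul]
      apply integral_congr_ae
      filter_upwards with y
      rw [hs1, cnc_MK_smul]
      ring
    calc ∫⁻ x, ‖cn (MK s) v x‖ₑ ^ 2 = ∫⁻ x, ENNReal.ofReal (B ^ 2) * ‖MM m v x‖ₑ ^ 2 := by
          apply lintegral_congr
          intro x
          rw [h5, enorm_mul, mul_pow]
          congr 1
          rw [← ofReal_norm, Complex.norm_real, Real.norm_of_nonneg hB0, ENNReal.ofReal_pow hB0]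
      _ = ENNReal.ofReal (B ^ 2) * ∫⁻ x, ‖MM m v x‖ₑ ^ 2 := by
          rw [lintegral_const_mul' _ _ ENNReal.ofReal_ne_top]
      _ ≤ _ := by gcongr

theorem cnc_meas {n : ℕ} {s v : EE n → ℂ} (hs : Measurable s) (hv : Measurable v) :
    Measurable (cn s v) := by
  have h : Measurable (fun q : EE n × EE n => s (q.1 - q.2) * v q.2) := by fun_prop
  exact (h.stronglyMeasurable.integral_prod_right (ν := volume)).measurable

theorem pf_cnc (hPLE : T_PLE) : T_CNC := by
  intro n s₁ s₂ v M h1 h2 hv hvM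
  obtain ⟨hi1, hc1, A1, hA1⟩ := cnc_ker h1
  obtain ⟨hi2, hc2, A2, hA2⟩ := cnc_ker h2
  have hM0 : 0 ≤ M := (norm_nonneg _).trans (hvM 0)
  have hshift : ∀ x : EE n, Integrable (fun y => MK s₁ (x - y)) := fun x => hi1.comp_sub_left x
  refine ⟨hi1, hc1.measurable, cnc_meas hc1.measurable hv, ?_, ?_, ?_⟩
  · -- sup bound
    intro x
    unfold cn
    refine (norm_integral_le_integral_norm _).trans ?_
    have h3 : ∫ y, ‖MK s₁ (x - y)‖ = ∫ y, ‖MK s₁ y‖ :=
      integral_sub_left_eq_self (fun y => ‖MK s₁ y‖) volume x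
    rw [← h3, ← integral_mul_const]
    refine integral_mono_of_nonneg (Filter.Eventually.of_forall fun y => norm_nonneg _)
      ((hshift x).norm.mul_const M) (Filter.Eventually.of_forall fun y => ?_)
    simp only
    rw [norm_mul]
    exact mul_le_mul_of_nonneg_left (hvM y) (norm_nonneg _)
  · -- composition
    intro x
    have hf : Integrable (fun y => MK s₁ (x - y)) := hshift x
    have hg : Integrable (fun w : EE n => MK s₂ (-w)) := hi2.comp_neg
    have hconv := hf.convolution_integrand (ContinuousLinearMap.mul ℂ ℂ) hg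
    have hconv2 : Integrable (fun p : EE n × EE n => MK s₁ (x - p.2) * MK s₂ (p.2 - p.1))
        (volume.prod volume) := by
      refine hconv.congr (Filter.Eventually.of_forall fun p => ?_)
      simp only [ContinuousLinearMap.mul_apply']
      rw [neg_sub]
    have hconv3 : Integrable (fun p : EE n × EE n =>
        MK s₁ (x - p.2) * MK s₂ (p.2 - p.1) * v p.1) (volume.prod volume) := by
      refine hconv2.mul_bdd (c := M) ?_ (Filter.Eventually.of_forall fun p => hvM p.1)
      exact (hv.comp measurable_fst).aestronglyMeasurable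
    unfold cn
    calc ∫ y, MK s₁ (x - y) * ∫ z, MK s₂ (y - z) * v z =
        ∫ y, ∫ z, MK s₁ (x - y) * MK s₂ (y - z) * v z := by
          apply integral_congr_ae
          filter_upwards with y
          rw [← integral_const_mul]
          apply integral_congr_ae
          filter_upwards with z
          ring
      _ = ∫ z, ∫ y, MK s₁ (x - y) * MK s₂ (y - z) * v z := by
          rw [integral_integral_swap]
          exact hconv3.swap
      _ = ∫ z, MK (fun ξ => s₁ ξ * s₂ ξ) (x - z) * v z := by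
          apply integral_congr_ae
          filter_upwards with z
          rw [integral_mul_const]
          congr 1
          rw [← cnc_prod hPLE h1 h2]
          rw [← integral_sub_right_eq_self (fun y => MK s₁ (x - z - y) * MK s₂ y) z]
          apply integral_congr_ae
          filter_upwards with y
          rw [show x - z - (y - z) = x - y by abel]
  · -- L² bound
    intro B hB
    obtain ⟨w, hw⟩ : ∃ w : ℕ → EE n → ℂ, w = fun R : ℕ =>
        (Metric.closedBall (0 : EE n) (R : ℝ)).indicator v :=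
      ⟨_, rfl⟩
    have hwm : ∀ R, Measurable (w R) := fun R => by
      rw [hw]
      exact hv.indicator measurableSet_closedBall
    have hwn : ∀ R x, ‖w R x‖ ≤ ‖v x‖ := fun R x => by
      rw [hw]
      exact norm_indicator_le_norm_self _ _
    have hwi : ∀ R, Integrable (w R) := by
      intro R
      rw [hw]
      simp only
      rw [integrable_indicator_iff measurableSet_closedBall]
      refine Measure.integrableOn_of_bounded (M := M) ?_ hv.aestronglyMeasurable ?_
      · exact measure_closedBall_lt_top.ne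
      · exact Filter.Eventually.of_forall hvM
    have hlim : ∀ x, Filter.Tendsto (fun R => cn (MK s₁) (w R) x) Filter.atTop
        (nhds (cn (MK s₁) v x)) := by
      intro x
      unfold cn
      refine tendsto_integral_of_dominated_convergence (fun y => ‖MK s₁ (x - y)‖ * M) ?_ ?_ ?_ ?_
      · intro R
        exact ((hc1.measurable.comp (measurable_const.sub measurable_id)).mul
          (hwm R)).aestronglyMeasurable
      · exact (hshift x).norm.mul_const M
      · intro R
        refine Filter.Eventually.of_forall fun y => ?_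
        rw [norm_mul]
        exact mul_le_mul_of_nonneg_left ((hwn R y).trans (hvM y)) (norm_nonneg _)
      · refine Filter.Eventually.of_forall fun y => ?_
        refine Filter.Tendsto.mul tendsto_const_nhds ?_
        refine tendsto_const_nhds.congr' ?_
        obtain ⟨R0, hR0⟩ := exists_nat_ge ‖y‖
        filter_upwards [Filter.eventually_ge_atTop R0] with R hR
        rw [hw]
        simp only
        rw [indicator_of_mem]
        rw [mem_closedBall_zero_iff]
        exact hR0.trans (by exact_mod_cast hR)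
    have hlim2 : ∀ x, Filter.Tendsto (fun R => ‖cn (MK s₁) (w R) x‖ₑ ^ 2) Filter.atTop
        (nhds (‖cn (MK s₁) v x‖ₑ ^ 2)) := by
      intro x
      exact ((ENNReal.continuous_pow 2).tendsto _).comp ((hlim x).enorm)
    calc ∫⁻ x, ‖cn (MK s₁) v x‖ₑ ^ 2 =
        ∫⁻ x, Filter.liminf (fun R => ‖cn (MK s₁) (w R) x‖ₑ ^ 2) Filter.atTop := by
          apply lintegral_congr
          intro x
          exact (hlim2 x).liminf_eq.symm
      _ ≤ Filter.liminf (fun R => ∫⁻ x, ‖cn (MK s₁) (w R) x‖ₑ ^ 2) Filter.atTop := by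
          apply lintegral_liminf_le
          intro R
          exact ((cnc_meas hc1.measurable (hwm R)).enorm).pow_const 2
      _ ≤ _ := by
          refine Filter.liminf_le_of_frequently_le' ?_
          refine Filter.Frequently.of_forall fun R => ?_
          refine (cnc_l2i hPLE h1 (hwm R) (fun x => (hwn R x).trans (hvM x)) (hwi R) hB).trans ?_
          gcongr with x
          rw [enorm_le_iff_norm_le]
          exact hwn R x

end Pool.Agent.H3.TN
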