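import Pool.Agent.H93.TN.TargetsA
import Pool.Agent.H86.AR.ZA
import Pool.Agent.H27.LS.Chi

/-! Module JT: the zonal kernel away from the directions `± w`. -/

set_option autoImplicit false

namespace Pool.Agent.H3.TN

open MeasureTheory Set FourierTransform
open Pool.Agent.H93.TN Pool.Agent.H83.LS Pool.Agent.H93.AR Pool.Agent.H54.LS Pool.Agent.H14.LS
open Pool.Agent.H83.AR Pool.Agent.H84.BR Pool.Agent.H84.B2
open scoped ENNReal NNReal SchwartzMap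

/-- bump on `ℝ^n` -/
noncomputable def jtH (n : ℕ) (y : EE n) : ℝ := eta0 (‖y‖ ^ 2)

theorem jtH_smooth (n : ℕ) : ContDiff ℝ (⊤ : ℕ∞) (jtH n) :=
  (Pool.Agent.H83.LS.H27.contDiff_eta0).comp (contDiff_norm_sq ℝ)

theorem jt_eta_one {s : ℝ} (hs : s ≤ 1) : eta0 s = 1 :=
  Real.smoothTransition.one_of_one_le (by linarith)

theorem jt_eta_zero {s : ℝ} (hs : 2 ≤ s) : eta0 s = 0 :=
  Real.smoothTransition.zero_of_nonpos (by linarith)

theorem jtH_bdd (n M : ℕ) : ∃ C : ℝ, 0 ≤ C ∧ ∀ k ≤ M, ∀ y : EE n,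
    ‖iteratedFDeriv ℝ k (jtH n) y‖ ≤ C := by
  have hc : HasCompactSupport (jtH n) := by
    refine HasCompactSupport.intro (K := Metric.closedBall 0 2) (isCompact_closedBall _ _)
      fun y hy => ?_
    rw [mem_closedBall_zero_iff, not_le] at hy
    unfold jtH
    apply jt_eta_zero
    nlinarith
  have h1 : ∀ k : ℕ, ∃ C : ℝ, ∀ y, ‖iteratedFDeriv ℝ k (jtH n) y‖ ≤ C := by
    intro k
    refine Continuous.bounded_above_of_compact_support ?_ (hc.iteratedFDeriv k)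
    exact (jtH_smooth n).continuous_iteratedFDeriv (by exact_mod_cast le_top)
  choose c hc1 using h1
  refine ⟨∑ i ∈ Finset.range (M + 1), |c i|, Finset.sum_nonneg fun i _ => abs_nonneg _, ?_⟩
  intro k hk s
  refine (hc1 k s).trans ((le_abs_self _).trans ?_)
  exact Finset.single_le_sum (f := fun i => |c i|) (fun i _ => abs_nonneg _)
    (Finset.mem_range.mpr (by omega))

/-- amplitudes at a smaller scale -/
theorem jt_scale {n M : ℕ} {δ₀ δ B : ℝ} {g : ℝ × EE n → ℂ} (hδ : 0 < δ) (hδ' : δ ≤ δ₀)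
    (h : SA n M δ₀ B g) : SA n M δ B g := by
  obtain ⟨h1, h2, h3⟩ := h
  refine ⟨h1, h2, fun ζ hζ k hk q hq => ?_⟩
  have h0 : 0 < δ₀ := hδ.trans_le hδ'
  obtain ⟨t, ht⟩ : ∃ t, t = δ / δ₀ := ⟨_, rfl⟩
  have ht0 : 0 ≤ t := by rw [ht]; positivity
  have ht1 : t ≤ 1 := by rw [ht]; exact (div_le_one h0).2 hδ'
  obtain ⟨T, hT⟩ : ∃ T : (ℝ × EE n) →L[ℝ] (ℝ × EE n), T =
    (ContinuousLinearMap.fst ℝ ℝ (EE n)).prod (t • ContinuousLinearMap.snd ℝ ℝ (EE n)) := ⟨_, rfl⟩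
  have hTa : ∀ q, T q = (q.1, t • q.2) := by intro q; rw [hT]; rfl
  have hTn : ‖T‖ ≤ 1 := by
    refine ContinuousLinearMap.opNorm_le_bound _ zero_le_one fun q => ?_
    rw [hTa, one_mul, Prod.norm_def, Prod.norm_def]
    refine max_le_max le_rfl ?_
    rw [norm_smul, Real.norm_of_nonneg ht0]
    exact mul_le_of_le_one_left (norm_nonneg _) ht1
  have hfun : (fun q : ℝ × EE n => g (q.1, ζ + δ • q.2)) =
      fun q => (fun q : ℝ × EE n => g (q.1, ζ + δ₀ • q.2)) (T q) := by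
    funext q
    simp only [hTa]
    rw [smul_smul, ht, mul_div_cancel₀ _ h0.ne']
  rw [hfun]
  have hcd : ContDiff ℝ (⊤ : ℕ∞) (fun q : ℝ × EE n => g (q.1, ζ + δ₀ • q.2)) := by
    have e1 : ContDiff ℝ (⊤ : ℕ∞) fun q : ℝ × EE n => (q.1, ζ + δ₀ • q.2) := by fun_prop
    exact h1.comp e1
  refine (Pool.Agent.H86.AR.za_comp T hTn hcd k q).trans (h3 ζ hζ k hk _ ?_)
  rw [hTa]
  simp only
  rw [norm_smul, Real.norm_of_nonneg ht0]
  nlinarith [norm_nonneg q.2]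

/-- derivatives of the cutoffs at scale `δ ≤ 2φ` -/
theorem jtH_scale {n k : ℕ} {C : ℝ} (hC : ∀ y : EE n, ‖iteratedFDeriv ℝ k (jtH n) y‖ ≤ C)
    (p : EE n) {t : ℝ} (ht0 : 0 ≤ t) (ht1 : t ≤ 1) (q : ℝ × EE n) :
    ‖iteratedFDeriv ℝ k (fun q : ℝ × EE n => jtH n (p + t • q.2)) q‖ ≤ C := by
  obtain ⟨T, hT⟩ : ∃ T : (ℝ × EE n) →L[ℝ] EE n, T = t • ContinuousLinearMap.snd ℝ ℝ (EE n) :=
    ⟨_, rfl⟩
  have hTa : ∀ q, T q = t • q.2 := by intro q; rw [hT]; rfl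
  have hTn : ‖T‖ ≤ 1 := by
    refine ContinuousLinearMap.opNorm_le_bound _ zero_le_one fun q => ?_
    rw [hTa, one_mul, norm_smul, Real.norm_of_nonneg ht0]
    exact (mul_le_of_le_one_left (norm_nonneg _) ht1).trans (norm_snd_le q)
  have hfun : (fun q : ℝ × EE n => jtH n (p + t • q.2)) =
      fun q => (fun y : EE n => jtH n (p + y)) (T q) := by
    funext q
    simp only [hTa]
  rw [hfun]
  have hcd : ContDiff ℝ (⊤ : ℕ∞) (fun y : EE n => jtH n (p + y)) :=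
    (jtH_smooth n).comp (contDiff_const.add contDiff_id)
  refine (Pool.Agent.H86.AR.za_comp T hTn hcd k q).trans ?_
  rw [iteratedFDeriv_comp_add_left]
  exact hC _

theorem jt_mul {n M : ℕ} {δ B C φ : ℝ} {g : ℝ × EE n → ℂ} (hδ : 0 < δ) (hφ : δ ≤ 2 * φ)
    (hC0 : 0 ≤ C) (hB0 : 0 ≤ B) (hC : ∀ k ≤ M, ∀ y : EE n, ‖iteratedFDeriv ℝ k (jtH n) y‖ ≤ C)
    (h : SA n M δ B g) (w : EE n) :
    SA n M δ (2 ^ M * (C * B)) (fun q => jtH n ((2 * φ)⁻¹ • (q.2 - w)) • g q) := by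
  obtain ⟨h1, h2, h3⟩ := h
  have hφ0 : 0 < 2 * φ := hδ.trans_le hφ
  refine ⟨?_, ?_, ?_⟩
  · have e1 : ContDiff ℝ (⊤ : ℕ∞) fun q : ℝ × EE n => (2 * φ)⁻¹ • (q.2 - w) := by fun_prop
    exact ((jtH_smooth n).comp e1).smul h1
  · intro q hq
    refine h2 q fun h => hq ?_
    simp only
    rw [h, smul_zero]
  · intro ζ hζ k hk q hq
    obtain ⟨t, ht⟩ : ∃ t, t = (2 * φ)⁻¹ * δ := ⟨_, rfl⟩
    have ht0 : 0 ≤ t := by rw [ht]; positivity
    have ht1 : t ≤ 1 := by rw [ht, inv_mul_le_iff₀ hφ0, mul_one]; exact hφ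
    obtain ⟨p, hp⟩ : ∃ p, p = (2 * φ)⁻¹ • (ζ - w) := ⟨_, rfl⟩
    have hfun : (fun q : ℝ × EE n => (fun q : ℝ × EE n =>
        jtH n ((2 * φ)⁻¹ • (q.2 - w)) • g q) (q.1, ζ + δ • q.2)) =
        fun q => jtH n (p + t • q.2) • g (q.1, ζ + δ • q.2) := by
      funext q
      simp only
      congr 2
      rw [hp, ht, ← smul_smul, ← smul_add]
      congr 1
      abel
    rw [hfun]
    have hcd : ContDiff ℝ (⊤ : ℕ∞) (fun q : ℝ × EE n => g (q.1, ζ + δ • q.2)) := by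
      have e1 : ContDiff ℝ (⊤ : ℕ∞) fun q : ℝ × EE n => (q.1, ζ + δ • q.2) := by fun_prop
      exact h1.comp e1
    have hcd2 : ContDiff ℝ (⊤ : ℕ∞) (fun q : ℝ × EE n => jtH n (p + t • q.2)) := by
      have e1 : ContDiff ℝ (⊤ : ℕ∞) fun q : ℝ × EE n => p + t • q.2 := by fun_prop
      exact (jtH_smooth n).comp e1
    refine (norm_iteratedFDeriv_smul_le hcd2 hcd q (n := k) (by exact_mod_cast le_top)).trans ?_
    exact Pool.Agent.H86.AR.za_choose hk hC0 hB0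
      (fun i => ‖iteratedFDeriv ℝ i (fun q : ℝ × EE n => jtH n (p + t • q.2)) q‖)
      (fun i => ‖iteratedFDeriv ℝ i (fun q : ℝ × EE n => g (q.1, ζ + δ • q.2)) q‖)
      (fun i => norm_nonneg _) (fun i => norm_nonneg _)
      (fun i hi => jtH_scale (hC i hi) p ht0 ht1 q) (fun i hi => h3 ζ hζ i hi q hq)

theorem jt_sub {n M : ℕ} {δ B B' : ℝ} {g g' : ℝ × EE n → ℂ} (h : SA n M δ B g)
    (h' : SA n M δ B' g') : SA n M δ (B + B') (fun q => g q - g' q) := by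
  obtain ⟨h1, h2, h3⟩ := h
  obtain ⟨h1', h2', h3'⟩ := h'
  refine ⟨h1.sub h1', ?_, ?_⟩
  · intro q hq
    by_cases h : g q = 0
    · refine h2' q fun h4 => hq ?_
      simp only
      rw [h, h4, sub_zero]
    · exact h2 q h
  · intro ζ hζ k hk q hq
    have e1 : ContDiff ℝ (⊤ : ℕ∞) fun q : ℝ × EE n => (q.1, ζ + δ • q.2) := by fun_prop
    have hcd : ContDiff ℝ (⊤ : ℕ∞) (fun q : ℝ × EE n => g (q.1, ζ + δ • q.2)) := h1.comp e1
    have hcd' : ContDiff ℝ (⊤ : ℕ∞) (fun q : ℝ × EE n => g' (q.1, ζ + δ • q.2)) := h1'.comp e1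
    have h4 : iteratedFDeriv ℝ k (fun q : ℝ × EE n =>
        g (q.1, ζ + δ • q.2) - g' (q.1, ζ + δ • q.2)) q =
        iteratedFDeriv ℝ k (fun q : ℝ × EE n => g (q.1, ζ + δ • q.2)) q -
          iteratedFDeriv ℝ k (fun q : ℝ × EE n => g' (q.1, ζ + δ • q.2)) q :=
      iteratedFDeriv_sub_apply (hcd.contDiffAt.of_le (by exact_mod_cast le_top))
        (hcd'.contDiffAt.of_le (by exact_mod_cast le_top))
    simp only
    rw [h4]
    exact (norm_sub_le _ _).trans (add_le_add (h3 ζ hζ k hk q hq) (h3' ζ hζ k hk q hq))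

theorem pf_jt (hJN : T_JN) (hZA : T_ZA) : T_JT := by
  intro n N hn
  obtain ⟨M, C₁, hC₁, hJ⟩ := hJN n N hn
  obtain ⟨M', C₂, hZ⟩ := hZA n M hn
  obtain ⟨B₀, hB₀, hχ⟩ := Pool.Agent.H83.LS.H27.CB_chi M'
  obtain ⟨C₃, hC₃, hH⟩ := jtH_bdd n M
  refine ⟨16 ^ N * (C₁ * (|C₂ * B₀| * (1 + 2 ^ M * C₃ + 2 ^ M * C₃))), by positivity, ?_⟩
  intro L φ R u v w hL hφ hφ' hR hu hv hw huw
  have hL0 : 0 < L := by linarith
  have hR0 : 0 < R := by linarith
  have hsR : 0 < Real.sqrt R := Real.sqrt_pos.2 hR0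
  have hsR1 : 1 ≤ Real.sqrt R := by
    rw [show (1 : ℝ) = Real.sqrt 1 by simp]
    exact Real.sqrt_le_sqrt hR
  obtain ⟨δ, hδ⟩ : ∃ δ, δ = 1 / 16 * min φ (min (1 / L) (1 / Real.sqrt R)) := ⟨_, rfl⟩
  have hδ0 : 0 < δ := by rw [hδ]; positivity
  have hδφ : δ ≤ 1 / 16 * φ := by
    rw [hδ]
    exact mul_le_mul_of_nonneg_left (min_le_left _ _) (by norm_num)
  have hδL : δ ≤ 1 / 16 * (1 / L) := by
    rw [hδ]
    exact mul_le_mul_of_nonneg_left ((min_le_right _ _).trans (min_le_left _ _)) (by norm_num)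
  have hδR : δ ≤ 1 / 16 * (1 / Real.sqrt R) := by
    rw [hδ]
    exact mul_le_mul_of_nonneg_left ((min_le_right _ _).trans (min_le_right _ _)) (by norm_num)
  obtain ⟨B, hB⟩ : ∃ B, B = |C₂ * B₀| * L ^ (n - 1) := ⟨_, rfl⟩
  have hB0 : 0 ≤ B := by rw [hB]; positivity
  have hg0 := hZ _ B₀ L v hχ hL hv
  obtain ⟨g0, hg0e⟩ : ∃ g0 : ℝ × EE n → ℂ, g0 = fun q : ℝ × EE n => ((chi q.1 : ℝ) : ℂ) *
    (((|q.1|) ^ (((n : ℝ) - 1) / 2) : ℝ) : ℂ) * ((zk n L q.2 v : ℝ) : ℂ) := ⟨_, rfl⟩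
  rw [← hg0e] at hg0
  have hg1 : SA n M δ B g0 := by
    refine jt_scale hδ0 (hδL.trans ?_) ⟨hg0.1, hg0.2.1, fun ζ hζ k hk q hq =>
      (hg0.2.2 ζ hζ k hk q hq).trans ?_⟩
    · have : 0 < 1 / L := by positivity
      linarith
    · rw [hB]
      exact mul_le_mul_of_nonneg_right (le_abs_self _) (by positivity)
  have hp := jt_mul (φ := φ) hδ0 (by linarith) hC₃ hB0 hH hg1 w
  have hm := jt_mul (φ := φ) hδ0 (by linarith) hC₃ hB0 hH hg1 (-w)
  have hg := jt_sub (jt_sub hg1 hp) hm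
  obtain ⟨g, hge⟩ : ∃ g : ℝ × EE n → ℂ, g = fun q => g0 q -
      jtH n ((2 * φ)⁻¹ • (q.2 - w)) • g0 q - jtH n ((2 * φ)⁻¹ • (q.2 - -w)) • g0 q := ⟨_, rfl⟩
  rw [← hge] at hg
  have hH1 : ∀ (x y : EE n), jtH n ((2 * φ)⁻¹ • (x - y)) = eta0 ((‖x - y‖ / (2 * φ)) ^ 2) := by
    intro x y
    unfold jtH
    rw [norm_smul, norm_inv, Real.norm_of_nonneg (by linarith : (0 : ℝ) ≤ 2 * φ)]
    congr 2
    ring
  have hgf : ∀ q, g q = ((1 - aw φ w q.2 : ℝ) : ℂ) * g0 q := by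
    intro q
    rw [hge]
    simp only
    rw [hH1, hH1, sub_neg_eq_add, Complex.real_smul, Complex.real_smul]
    unfold aw
    push_cast
    ring
  -- the support
  have hsupp : ∀ (s : ℝ) (z : EE n), ‖z‖ = 1 → g (s, z) ≠ 0 → φ ≤ ‖z - u‖ ∧ φ ≤ ‖z + u‖ := by
    intro s z hz hgz
    have h1 : 1 - aw φ w z ≠ 0 := by
      intro h
      apply hgz
      rw [hgf]
      simp only
      rw [h, Complex.ofReal_zero, zero_mul]
    have htri : 2 ≤ ‖z - w‖ + ‖z + w‖ := by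
      have h2 : ‖(z + w) - (z - w)‖ ≤ ‖z + w‖ + ‖z - w‖ := norm_sub_le _ _
      have h3 : (z + w) - (z - w) = (2 : ℝ) • w := by
        rw [two_smul]
        abel
      rw [h3, norm_smul, hw] at h2
      norm_num at h2
      linarith
    have hone : ∀ a b : ℝ, 0 ≤ a → a ≤ 2 * φ → 2 ≤ a + b →
        eta0 ((a / (2 * φ)) ^ 2) + eta0 ((b / (2 * φ)) ^ 2) = 1 := by
      intro a b ha hab hb
      have h3 : a / (2 * φ) ≤ 1 := (div_le_one (by linarith)).2 hab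
      have h4 : 0 ≤ a / (2 * φ) := by positivity
      have h5 : 2 ≤ b / (2 * φ) := by
        rw [le_div_iff₀ (by linarith)]
        linarith
      rw [jt_eta_one (by nlinarith), jt_eta_zero (by nlinarith), add_zero]
    have h5 : 2 * φ < ‖z - w‖ := by
      by_contra h
      rw [not_lt] at h
      apply h1
      unfold aw
      rw [hone _ _ (norm_nonneg _) h htri]
      ring
    have h6 : 2 * φ < ‖z + w‖ := by
      by_contra h
      rw [not_lt] at h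
      apply h1
      unfold aw
      rw [add_comm, hone _ _ (norm_nonneg _) h (by linarith)]
      ring
    constructor
    · have h7 : ‖z - w‖ ≤ ‖z - u‖ + ‖u - w‖ := by
        have := norm_add_le (z - u) (u - w)
        rwa [sub_add_sub_cancel] at this
      linarith
    · have h7 : ‖z + w‖ ≤ ‖z + u‖ + ‖u - w‖ := by
        have := norm_sub_le (z + u) (u - w)
        have h8 : z + u - (u - w) = z + w := by abel
        rwa [h8] at this
      linarith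
  have hRδ : R * δ ^ 2 ≤ 1 := by
    have h1 : δ ^ 2 ≤ (1 / 16 * (1 / Real.sqrt R)) ^ 2 := pow_le_pow_left₀ hδ0.le hδR 2
    have h2 : R * (1 / 16 * (1 / Real.sqrt R)) ^ 2 = 1 / 256 := by
      rw [mul_pow, div_pow, div_pow, Real.sq_sqrt hR0.le]
      field_simp
      norm_num
    calc R * δ ^ 2 ≤ R * (1 / 16 * (1 / Real.sqrt R)) ^ 2 := mul_le_mul_of_nonneg_left h1 hR0.le
      _ ≤ 1 := by rw [h2]; norm_num
  have hmain := hJ g δ _ R φ 1 u hg hδ0 (by linarith) hRδ hR0.le hu hsupp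
  have hint : (∫ ω : Sp n, e (R * inner ℝ u (ω : EE n)) *
      ((zk n L (ω : EE n) v * (1 - aw φ w (ω : EE n)) : ℝ) : ℂ) ∂(sg n)) =
      ∫ ω : Sp n, e (R * inner ℝ u (ω : EE n)) * g (1, (ω : EE n)) ∂(sg n) := by
    apply integral_congr_ae
    filter_upwards with ω
    rw [hgf, hg0e]
    simp only
    have hchi : chi 1 = 1 := by
      unfold chi
      rw [jt_eta_one (by norm_num), jt_eta_zero (by norm_num), sub_zero]
    rw [hchi, abs_one, Real.one_rpow]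
    push_cast
    ring
  rw [hint]
  refine hmain.trans ?_
  -- the final comparison
  have hxeq : R * φ * δ =
      1 / 16 * min (R * φ ^ 2) (min (R * φ / L) (Real.sqrt R * φ)) := by
    rw [hδ]
    have e1 : Real.sqrt R * φ = R * φ * (1 / Real.sqrt R) := by
      have h4 : R = Real.sqrt R * Real.sqrt R := (Real.mul_self_sqrt hR0.le).symm
      field_simp
      rw [Real.sq_sqrt hR0.le]
    rw [e1, show R * φ ^ 2 = R * φ * φ by ring, show R * φ / L = R * φ * (1 / L) by ring,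
      ← mul_min_of_nonneg _ _ (by positivity : (0 : ℝ) ≤ R * φ),
      ← mul_min_of_nonneg _ _ (by positivity : (0 : ℝ) ≤ R * φ)]
    ring
  rw [hxeq]
  obtain ⟨X, hX⟩ : ∃ X, X = min (R * φ ^ 2) (min (R * φ / L) (Real.sqrt R * φ)) := ⟨_, rfl⟩
  have hX0 : 0 ≤ X := by rw [hX]; positivity
  rw [← hX]
  have hpow : ((1 + 1 / 16 * X) ^ N)⁻¹ ≤ 16 ^ N * ((1 + X) ^ N)⁻¹ := by
    rw [← inv_pow, ← inv_pow, ← mul_pow]
    apply pow_le_pow_left₀ (by positivity)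
    rw [← div_eq_mul_inv, inv_le_comm₀ (by positivity) (by positivity), inv_div,
      div_le_iff₀ (by norm_num)]
    linarith
  have hconst : B + 2 ^ M * (C₃ * B) + 2 ^ M * (C₃ * B) =
      |C₂ * B₀| * (1 + 2 ^ M * C₃ + 2 ^ M * C₃) * L ^ (n - 1) := by
    rw [hB]
    ring
  rw [hconst]
  calc C₁ * (|C₂ * B₀| * (1 + 2 ^ M * C₃ + 2 ^ M * C₃) * L ^ (n - 1)) *
        ((1 + 1 / 16 * X) ^ N)⁻¹ ≤
      C₁ * (|C₂ * B₀| * (1 + 2 ^ M * C₃ + 2 ^ M * C₃) * L ^ (n - 1)) *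
        (16 ^ N * ((1 + X) ^ N)⁻¹) := mul_le_mul_of_nonneg_left hpow (by positivity)
    _ = _ := by ring

end Pool.Agent.H3.TN
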